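import Mathlib

/-! Discretisation lemmas for the lattice proof of Mahler's conjecture (helper82's plan):
sums over `Z^d` versus integrals over `R^d`, one-sided Riemann bounds for cones, step functions. -/

namespace Pool.Agent.Helper83.MAH

open MeasureTheory Set Pointwise

variable {d : ℕ}

/-- the lattice point of the cell containing `y` (mesh `η`, translate `a`) -/
noncomputable def cell (η : ℝ) (a : Fin d → ℝ) (y : Fin d → ℝ) : Fin d → ℤ :=
  fun i => ⌊(y i - a i) / η⌋

/-- the real point of a lattice point -/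
noncomputable def pt (η : ℝ) (a : Fin d → ℝ) (x : Fin d → ℤ) : Fin d → ℝ :=
  fun i => η * (x i : ℝ) + a i

lemma measurable_cell (η : ℝ) (a : Fin d → ℝ) : Measurable (cell η a) := by
  refine measurable_pi_iff.2 fun i => ?_
  unfold cell
  exact Int.measurable_floor.comp (((measurable_pi_apply i).sub_const _).div_const _)

lemma cell_preimage {η : ℝ} (hη : 0 < η) (a : Fin d → ℝ) (x : Fin d → ℤ) :
    cell η a ⁻¹' {x} = Set.pi univ (fun i => Ico (η * (x i : ℝ) + a i) (η * (x i : ℝ) + a i + η)) := by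
  ext y
  simp only [mem_preimage, mem_singleton_iff, mem_pi, mem_univ, true_implies, mem_Ico]
  constructor
  · intro h i
    have hi : ⌊(y i - a i) / η⌋ = x i := congrFun h i
    rw [Int.floor_eq_iff] at hi
    obtain ⟨h1, h2⟩ := hi
    rw [le_div_iff₀ hη] at h1
    rw [div_lt_iff₀ hη] at h2
    constructor <;> nlinarith
  · intro h
    funext i
    obtain ⟨h1, h2⟩ := h i
    show ⌊(y i - a i) / η⌋ = x i
    rw [Int.floor_eq_iff]
    constructor
    · rw [le_div_iff₀ hη]; nlinarith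
    · rw [div_lt_iff₀ hη]; nlinarith

lemma volume_cell {η : ℝ} (hη : 0 < η) (a : Fin d → ℝ) (x : Fin d → ℤ) :
    volume (cell η a ⁻¹' {x}) = ENNReal.ofReal (η ^ d) := by
  rw [cell_preimage hη, Real.volume_pi_Ico]
  simp [ENNReal.ofReal_pow hη.le]

/-- sums over the lattice are integrals of step functions -/
theorem lintegral_cell {η : ℝ} (hη : 0 < η) (a : Fin d → ℝ) (h : (Fin d → ℤ) → ENNReal) :
    ∫⁻ y, h (cell η a y) = ENNReal.ofReal (η ^ d) * ∑' x, h x := by
  have hm : Measurable h := measurable_of_countable h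
  rw [← lintegral_map (μ := volume) hm (measurable_cell η a), lintegral_countable']
  rw [← ENNReal.tsum_mul_left]
  refine tsum_congr fun x => ?_
  rw [Measure.map_apply (measurable_cell η a) (measurableSet_singleton x), volume_cell hη, mul_comm]

/-- position of a point in its cell -/
lemma cell_spec {η : ℝ} (hη : 0 < η) (a y : Fin d → ℝ) :
    ∃ α : Fin d → ℝ, (∀ i, 0 ≤ α i ∧ α i < 1) ∧ y = fun i => pt η a (cell η a y) i + η * α i := by
  refine ⟨fun i => Int.fract ((y i - a i) / η), fun i => ⟨Int.fract_nonneg _, Int.fract_lt_one _⟩, ?_⟩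
  funext i
  have := Int.floor_add_fract ((y i - a i) / η)
  simp only [pt, cell]
  have h2 : η * ((⌊(y i - a i) / η⌋ : ℝ) + Int.fract ((y i - a i) / η)) = y i - a i := by
    rw [this]; field_simp
  linarith

/-- l1 size of a linear functional -/
noncomputable def ce (e : (Fin d → ℝ) →ₗ[ℝ] ℝ) : ℝ := ∑ i, |e (Pi.single i 1)|

lemma ce_nonneg (e : (Fin d → ℝ) →ₗ[ℝ] ℝ) : 0 ≤ ce e := Finset.sum_nonneg fun _ _ => abs_nonneg _

lemma abs_le_ce (e : (Fin d → ℝ) →ₗ[ℝ] ℝ) {b : ℝ} {α : Fin d → ℝ} (hα : ∀ i, |α i| ≤ b) :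
    |e α| ≤ b * ce e := by
  have h1 : e α = ∑ i, α i * e (Pi.single i 1) := by
    rw [LinearMap.pi_apply_eq_sum_univ e α]
    refine Finset.sum_congr rfl fun i _ => ?_
    simp only [smul_eq_mul]
    congr 2
    funext j
    simp [Pi.single_apply, eq_comm]
  rw [h1, ce, Finset.mul_sum]
  refine (Finset.abs_sum_le_sum_abs _ _).trans (Finset.sum_le_sum fun i _ => ?_)
  rw [abs_mul]
  exact mul_le_mul_of_nonneg_right (hα i) (abs_nonneg _)

/-- lattice vector as a real vector -/
def toR (w : Fin d → ℤ) : Fin d → ℝ := fun i => (w i : ℝ)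

/-- hypotheses on the cone: closed under sums and nonnegative multiples, and `w + [-2,2]^d ⊆ C`. -/
structure Deep (C : Set (Fin d → ℝ)) (w : Fin d → ℤ) : Prop where
  add : ∀ x ∈ C, ∀ y ∈ C, x + y ∈ C
  smul : ∀ c : ℝ, 0 ≤ c → ∀ x ∈ C, c • x ∈ C
  deep : ∀ α : Fin d → ℝ, (∀ i, |α i| ≤ 2) → toR w + α ∈ C

/-- a cone with interior contains `w + [-2,2]^d` for some lattice point `w` -/
theorem exists_deep {C : Set (Fin d → ℝ)} (hadd : ∀ x ∈ C, ∀ y ∈ C, x + y ∈ C)
    (hsmul : ∀ c : ℝ, 0 ≤ c → ∀ x ∈ C, c • x ∈ C) (hint : (interior C).Nonempty) :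
    ∃ w, Deep C w := by
  obtain ⟨x, hx⟩ := hint
  obtain ⟨r, hr, hball⟩ := Metric.isOpen_iff.1 isOpen_interior x hx
  have hlam : 0 < 4 / r := by positivity
  refine ⟨fun i => ⌊(4 / r) * x i⌋, hadd, hsmul, fun α hα => ?_⟩
  set β : Fin d → ℝ := toR (fun i => ⌊(4 / r) * x i⌋) + α - (4 / r) • x with hβ
  have hβb : ∀ i, |β i| ≤ 3 := by
    intro i
    simp only [hβ, toR, Pi.add_apply, Pi.sub_apply, Pi.smul_apply, smul_eq_mul]
    have h1 := Int.floor_le ((4 / r) * x i)
    have h2 := Int.lt_floor_add_one ((4 / r) * x i)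
    have h3 := abs_le.1 (hα i)
    rw [abs_le]
    constructor <;> linarith [h3.1, h3.2]
  have hmem : x + (r / 4) • β ∈ C := by
    refine interior_subset (hball ?_)
    rw [Metric.mem_ball, dist_eq_norm]
    have : x + (r / 4) • β - x = (r / 4) • β := by abel
    rw [this, norm_smul, Real.norm_eq_abs, abs_of_pos (by positivity)]
    have h4 : ‖β‖ ≤ 3 := (pi_norm_le_iff_of_nonneg (by norm_num)).2 fun i => by
      rw [Real.norm_eq_abs]; exact hβb i
    nlinarith
  have := hsmul (4 / r) hlam.le _ hmem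
  have heq : (4 / r) • (x + (r / 4) • β) = toR (fun i => ⌊(4 / r) * x i⌋) + α := by
    rw [smul_add, smul_smul]
    have : 4 / r * (r / 4) = 1 := by field_simp
    rw [this, one_smul, hβ]
    abel
  rwa [heq] at this

variable {C : Set (Fin d → ℝ)} {w : Fin d → ℤ}

/-- the constant in all bounds -/
noncomputable def cw (e : (Fin d → ℝ) →ₗ[ℝ] ℝ) (w : Fin d → ℤ) : ℝ := e (toR w) + 2 * ce e

lemma e_deep_le (e : (Fin d → ℝ) →ₗ[ℝ] ℝ) (w : Fin d → ℤ) {α : Fin d → ℝ}
    (hα : ∀ i, |α i| ≤ 2) : e (toR w + α) ≤ cw e w := by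
  rw [map_add, cw]
  have := (abs_le.1 (abs_le_ce e hα)).2
  linarith

lemma cw_nonneg (hC : Deep C w) {e : (Fin d → ℝ) →ₗ[ℝ] ℝ} (he : ∀ x ∈ C, 0 ≤ e x) :
    0 ≤ cw e w := by
  have h0 : ∀ i, |(0 : Fin d → ℝ) i| ≤ 2 := by simp
  exact (he _ (hC.deep 0 h0)).trans (e_deep_le e w h0)

/-- summand of the lattice sum of `exp (-u e)` over the lattice points in the cone -/
noncomputable def lat (C : Set (Fin d → ℝ)) (e : (Fin d → ℝ) →ₗ[ℝ] ℝ) (u η : ℝ) (a : Fin d → ℝ)
    (x : Fin d → ℤ) : ENNReal := by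
  classical
  exact if pt η a x ∈ C then ENNReal.ofReal (Real.exp (-(u * e (pt η a x)))) else 0

theorem riem_upper (hC : Deep C w) (hCm : MeasurableSet C) (e : (Fin d → ℝ) →ₗ[ℝ] ℝ)
    {η u : ℝ} (hη : 0 < η) (hu : 0 ≤ u) (a : Fin d → ℝ) :
    ENNReal.ofReal (η ^ d) * ∑' x, lat C e u η a x ≤
      ENNReal.ofReal (Real.exp (u * η * cw e w)) *
        ∫⁻ y in C, ENNReal.ofReal (Real.exp (-(u * e y))) := by
  classical
  rw [← lintegral_cell hη (a + η • toR w), ← lintegral_indicator hCm,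
    ← lintegral_const_mul' _ _ ENNReal.ofReal_ne_top]
  refine lintegral_mono fun y => ?_
  obtain ⟨α, hα, hy⟩ := cell_spec hη (a + η • toR w) y
  set x := cell η (a + η • toR w) y with hx
  have hy2 : y = pt η a x + η • (toR w + α) := by
    rw [hy]; funext i
    simp only [pt, Pi.add_apply, Pi.smul_apply, smul_eq_mul]
    ring
  have hα2 : ∀ i, |α i| ≤ 2 := fun i => by
    rw [abs_le]; constructor <;> linarith [(hα i).1, (hα i).2]
  unfold lat
  split_ifs with h
  · have hyC : y ∈ C := by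
      rw [hy2]; exact hC.add _ h _ (hC.smul _ hη.le _ (hC.deep α hα2))
    rw [Set.indicator_of_mem hyC, ← ENNReal.ofReal_mul (Real.exp_pos _).le, ← Real.exp_add]
    refine ENNReal.ofReal_le_ofReal (Real.exp_le_exp.2 ?_)
    have h1 : e y = e (pt η a x) + η * e (toR w + α) := by
      rw [hy2, map_add, map_smul, smul_eq_mul]
    have h2 := e_deep_le e w hα2
    rw [h1]
    have h3 : u * (η * e (toR w + α)) ≤ u * (η * cw e w) :=
      mul_le_mul_of_nonneg_left (mul_le_mul_of_nonneg_left h2 hη.le) hu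
    nlinarith
  · exact bot_le

theorem riem_lower (hC : Deep C w) (hCm : MeasurableSet C) (e : (Fin d → ℝ) →ₗ[ℝ] ℝ)
    {η u : ℝ} (hη : 0 < η) (hu : 0 ≤ u) (a : Fin d → ℝ) :
    ENNReal.ofReal (Real.exp (-(u * η * cw e w))) *
        ∫⁻ y in C, ENNReal.ofReal (Real.exp (-(u * e y))) ≤
      ENNReal.ofReal (η ^ d) * ∑' x, lat C e u η a x := by
  classical
  rw [← lintegral_cell hη a,
    ← lintegral_add_right_eq_self (fun y => lat C e u η a (cell η a y)) (η • toR w),
    ← lintegral_indicator hCm, ← lintegral_const_mul' _ _ ENNReal.ofReal_ne_top]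
  refine lintegral_mono fun y => ?_
  by_cases hyC : y ∈ C
  · obtain ⟨α, hα, hy⟩ := cell_spec hη a (y + η • toR w)
    set x := cell η a (y + η • toR w) with hx
    have hα2 : ∀ i, |(-α) i| ≤ 2 := fun i => by
      simp only [Pi.neg_apply, abs_neg]
      rw [abs_le]; constructor <;> linarith [(hα i).1, (hα i).2]
    have hy2 : pt η a x = y + η • (toR w + (-α)) := by
      funext i
      have := congrFun hy i
      simp only [Pi.add_apply, Pi.smul_apply, smul_eq_mul, Pi.neg_apply] at this ⊢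
      linarith
    have hpt : pt η a x ∈ C := by
      rw [hy2]; exact hC.add _ hyC _ (hC.smul _ hη.le _ (hC.deep _ hα2))
    rw [Set.indicator_of_mem hyC]
    show _ ≤ lat C e u η a x
    unfold lat
    rw [if_pos hpt, ← ENNReal.ofReal_mul (Real.exp_pos _).le, ← Real.exp_add]
    refine ENNReal.ofReal_le_ofReal (Real.exp_le_exp.2 ?_)
    have h1 : e (pt η a x) = e y + η * e (toR w + (-α)) := by
      rw [hy2, map_add, map_smul, smul_eq_mul]
    have h2 := e_deep_le e w hα2
    rw [h1]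
    have h3 : u * (η * e (toR w + (-α))) ≤ u * (η * cw e w) :=
      mul_le_mul_of_nonneg_left (mul_le_mul_of_nonneg_left h2 hη.le) hu
    nlinarith
  · rw [Set.indicator_of_notMem hyC]; simp

/-- lattice constraints give the real constraint up to an additive error -/
theorem step (hC : Deep C w) {e : (Fin d → ℝ) →ₗ[ℝ] ℝ}
    {η t s : ℝ} (hη : 0 < η) (ht : 0 < t) (hs : 0 < s) (a : Fin d → ℝ)
    {ψ : (Fin d → ℤ) → ℝ}
    (hup : ∀ x v, toR v ∈ C → ψ (x + v) ≤ ψ x + η * e (toR v) / t)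
    (hdn : ∀ x v, toR v ∈ C → ψ (x - v) ≤ ψ x + η * e (toR v) / s)
    {y y' p q : Fin d → ℝ} (hp : p ∈ C) (hq : q ∈ C) (hpq : y' = y + p - q) :
    ψ (cell η a y') ≤ ψ (cell η a y) + (e p / t + e q / s) + η * cw e w * (1 / t + 1 / s) := by
  obtain ⟨α, hα, hy⟩ := cell_spec hη a y
  obtain ⟨α', hα', hy'⟩ := cell_spec hη a y'
  obtain ⟨β, hβ, hb⟩ := cell_spec hη (0 : Fin d → ℝ) q
  set x := cell η a y
  set x' := cell η a y'
  set m : Fin d → ℤ := cell η 0 q + w with hm
  set n : Fin d → ℤ := x' - x + m with hn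
  have hm1 : toR m = (1 / η) • q + (toR w + (-β)) := by
    funext i
    have h1 := congrFun hb i
    simp only [hm, toR, pt, Pi.add_apply, Pi.smul_apply, smul_eq_mul, Pi.neg_apply, Pi.zero_apply,
      Int.cast_add] at h1 ⊢
    have : (1 / η) * q i = (cell η 0 q i : ℝ) + β i := by
      rw [h1]; field_simp; ring
    rw [this]; ring
  have hn1 : toR n = (1 / η) • p + (toR w + (α - α' - β)) := by
    funext i
    have h1 := congrFun hb i
    have h2 := congrFun hy i
    have h3 := congrFun hy' i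
    have h4 := congrFun hpq i
    simp only [hn, hm, toR, pt, Pi.add_apply, Pi.sub_apply, Pi.smul_apply, smul_eq_mul,
      Pi.zero_apply, Int.cast_add, Int.cast_sub] at h1 h2 h3 h4 ⊢
    have h5 : p i = η * ((x' i : ℝ) - x i + (cell η 0 q i : ℝ) + (α' i - α i + β i)) := by
      have : p i = y' i - y i + q i := by linarith
      rw [this, h3, h2]
      nth_rewrite 1 [h1]
      ring
    have : (1 / η) * p i = (x' i : ℝ) - x i + (cell η 0 q i : ℝ) + (α' i - α i + β i) := by
      rw [h5]; field_simp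
    rw [this]; ring
  have hbb : ∀ i, |(-β) i| ≤ 2 := fun i => by
    simp only [Pi.neg_apply, abs_neg]
    rw [abs_le]; constructor <;> linarith [(hβ i).1, (hβ i).2]
  have hab : ∀ i, |(α - α' - β) i| ≤ 2 := fun i => by
    simp only [Pi.sub_apply]
    rw [abs_le]
    constructor <;> linarith [(hβ i).1, (hβ i).2, (hα i).1, (hα i).2, (hα' i).1, (hα' i).2]
  have hη1 : (0 : ℝ) ≤ 1 / η := by positivity
  have hmC : toR m ∈ C := by
    rw [hm1]; exact hC.add _ (hC.smul _ hη1 _ hq) _ (hC.deep _ hbb)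
  have hnC : toR n ∈ C := by
    rw [hn1]; exact hC.add _ (hC.smul _ hη1 _ hp) _ (hC.deep _ hab)
  have hme : η * e (toR m) ≤ e q + η * cw e w := by
    rw [hm1, map_add, map_smul, smul_eq_mul, mul_add]
    have h1 : η * (1 / η * e q) = e q := by field_simp
    have h2 := mul_le_mul_of_nonneg_left (e_deep_le e w hbb) hη.le
    linarith
  have hne : η * e (toR n) ≤ e p + η * cw e w := by
    rw [hn1, map_add, map_smul, smul_eq_mul, mul_add]
    have h1 : η * (1 / η * e p) = e p := by field_simp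
    have h2 := mul_le_mul_of_nonneg_left (e_deep_le e w hab) hη.le
    linarith
  have h1 := hdn x m hmC
  have h2 := hup (x - m) n hnC
  have h3 : x - m + n = x' := by rw [hn]; abel
  rw [h3] at h2
  have h4 : η * e (toR m) / s ≤ (e q + η * cw e w) / s := div_le_div_of_nonneg_right hme hs.le
  have h5 : η * e (toR n) / t ≤ (e p + η * cw e w) / t := div_le_div_of_nonneg_right hne ht.le
  have h6 : (e q + η * cw e w) / s + (e p + η * cw e w) / t =
      (e p / t + e q / s) + η * cw e w * (1 / t + 1 / s) := by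
    field_simp; ring
  linarith

/-- number of lattice points of the order interval `[0,z]`, in `[0,∞]` -/
noncomputable def cnt (C : Set (Fin d → ℝ)) (η : ℝ) (z : Fin d → ℝ) : ENNReal := by
  classical
  exact ∑' x : Fin d → ℤ, if pt η 0 x ∈ C ∧ z - pt η 0 x ∈ C then 1 else 0

/-- the order interval -/
def oi (C : Set (Fin d → ℝ)) (z : Fin d → ℝ) : Set (Fin d → ℝ) := {y | y ∈ C ∧ z - y ∈ C}

lemma measurable_oi (hCm : MeasurableSet C) (z : Fin d → ℝ) : MeasurableSet (oi C z) := by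
  refine hCm.inter ?_
  exact (measurable_const.sub measurable_id) hCm

/-- `κ z - 2 w ∈ C` for some `κ`, if `z` is an interior point -/
lemma exists_kappa (hC : Deep C w) {z : Fin d → ℝ} (hz : z ∈ interior C) :
    ∃ κ : ℝ, 0 < κ ∧ κ • z - (2 : ℝ) • toR w ∈ C := by
  obtain ⟨r, hr, hball⟩ := Metric.isOpen_iff.1 isOpen_interior z hz
  set M : ℝ := ‖(2 : ℝ) • toR w‖ + 1 with hM
  have hMpos : 0 < M := by positivity
  refine ⟨M / r, by positivity, ?_⟩
  have hmem : z - (r / M) • ((2 : ℝ) • toR w) ∈ C := by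
    refine interior_subset (hball ?_)
    rw [Metric.mem_ball, dist_eq_norm]
    have : z - (r / M) • ((2 : ℝ) • toR w) - z = -((r / M) • ((2 : ℝ) • toR w)) := by abel
    rw [this, norm_neg, norm_smul, Real.norm_eq_abs, abs_of_pos (by positivity)]
    have : ‖(2 : ℝ) • toR w‖ < M := by rw [hM]; linarith
    calc r / M * ‖(2 : ℝ) • toR w‖ < r / M * M := mul_lt_mul_of_pos_left this (by positivity)
      _ = r := by field_simp
  have := hC.smul (M / r) (by positivity) _ hmem
  have heq : (M / r) • (z - (r / M) • ((2 : ℝ) • toR w)) = (M / r) • z - (2 : ℝ) • toR w := by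
    rw [smul_sub, smul_smul]
    have : M / r * (r / M) = 1 := by field_simp
    rw [this, one_smul]
  rwa [heq] at this

theorem cnt_lower (hC : Deep C w) (hCm : MeasurableSet C)
    {η κ : ℝ} (hη : 0 < η) (hκ : κ * η ≤ 1) {z : Fin d → ℝ}
    (hz : κ • z - (2 : ℝ) • toR w ∈ C) :
    ENNReal.ofReal ((1 - κ * η) ^ d) * volume (oi C z) ≤ ENNReal.ofReal (η ^ d) * cnt C η z := by
  classical
  have h0 : (0 : ℝ) ≤ 1 - κ * η := by linarith
  have h1 : ENNReal.ofReal ((1 - κ * η) ^ d) * volume (oi C z) =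
      volume ((1 - κ * η) • oi C z) := by
    rw [Measure.addHaar_smul]
    simp only [Module.finrank_fintype_fun_eq_card, Fintype.card_fin]
    rw [abs_of_nonneg (by positivity)]
  have hsub : (1 - κ * η) • oi C z ⊆ {y | y ∈ C ∧ (z - (2 * η) • toR w) - y ∈ C} := by
    rintro _ ⟨y, ⟨hy1, hy2⟩, rfl⟩
    refine ⟨hC.smul _ h0 _ hy1, ?_⟩
    have heq : z - (2 * η) • toR w - (1 - κ * η) • y =
        (1 - κ * η) • (z - y) + η • (κ • z - (2 : ℝ) • toR w) := by
      funext i
      simp only [Pi.add_apply, Pi.sub_apply, Pi.smul_apply, smul_eq_mul]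
      ring
    show z - (2 * η) • toR w - (1 - κ * η) • y ∈ C
    rw [heq]
    exact hC.add _ (hC.smul _ h0 _ hy2) _ (hC.smul _ hη.le _ hz)
  rw [h1]
  refine (measure_mono hsub).trans ?_
  have hms : MeasurableSet {y | y ∈ C ∧ (z - (2 * η) • toR w) - y ∈ C} :=
    hCm.inter ((measurable_const.sub measurable_id) hCm)
  unfold cnt
  rw [← lintegral_cell hη 0,
    ← lintegral_add_right_eq_self (fun y => (if pt η 0 (cell η 0 y) ∈ C ∧
      z - pt η 0 (cell η 0 y) ∈ C then (1 : ENNReal) else 0)) (η • toR w),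
    ← lintegral_indicator_one hms]
  refine lintegral_mono fun y => ?_
  by_cases hy : y ∈ {y | y ∈ C ∧ (z - (2 * η) • toR w) - y ∈ C}
  · obtain ⟨hy1, hy2⟩ := hy
    obtain ⟨α, hα, hyy⟩ := cell_spec hη (0 : Fin d → ℝ) (y + η • toR w)
    set x := cell η 0 (y + η • toR w) with hx
    have hα2 : ∀ i, |(-α) i| ≤ 2 := fun i => by
      simp only [Pi.neg_apply, abs_neg]
      rw [abs_le]; constructor <;> linarith [(hα i).1, (hα i).2]
    have hα3 : ∀ i, |α i| ≤ 2 := fun i => by
      rw [abs_le]; constructor <;> linarith [(hα i).1, (hα i).2]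
    have e1 : pt η 0 x = y + η • (toR w + (-α)) := by
      funext i
      have := congrFun hyy i
      simp only [Pi.add_apply, Pi.smul_apply, smul_eq_mul, Pi.neg_apply] at this ⊢
      linarith
    have e2 : z - pt η 0 x = (z - (2 * η) • toR w - y) + η • (toR w + α) := by
      rw [e1]
      funext i
      simp only [Pi.add_apply, Pi.sub_apply, Pi.smul_apply, smul_eq_mul, Pi.neg_apply]
      ring
    rw [Set.indicator_of_mem (show y ∈ {y | y ∈ C ∧ (z - (2 * η) • toR w) - y ∈ C} from ⟨hy1, hy2⟩)]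
    have hpt : pt η 0 x ∈ C := by
      rw [e1]; exact hC.add _ hy1 _ (hC.smul _ hη.le _ (hC.deep _ hα2))
    have hpt2 : z - pt η 0 x ∈ C := by
      rw [e2]; exact hC.add _ hy2 _ (hC.smul _ hη.le _ (hC.deep _ hα3))
    show (1 : ENNReal) ≤ if pt η 0 x ∈ C ∧ z - pt η 0 x ∈ C then (1 : ENNReal) else 0
    rw [if_pos ⟨hpt, hpt2⟩]
  · rw [Set.indicator_of_notMem hy]
    exact bot_le

end Pool.Agent.Helper83.MAH
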