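import Pool.Agent.Helper83.MAH.Disc

/-! Real-number forms of the discretisation lemmas. -/

namespace Pool.Agent.Helper83.MAH

open MeasureTheory Set Pointwise

variable {d : ℕ} {C : Set (Fin d → ℝ)} {w : Fin d → ℤ}

/-- real summand -/
noncomputable def latR (C : Set (Fin d → ℝ)) (e : (Fin d → ℝ) →ₗ[ℝ] ℝ) (u η : ℝ) (a : Fin d → ℝ)
    (x : Fin d → ℤ) : ℝ := by
  classical
  exact if pt η a x ∈ C then Real.exp (-(u * e (pt η a x))) else 0

lemma latR_nonneg (e : (Fin d → ℝ) →ₗ[ℝ] ℝ) (u η : ℝ) (a : Fin d → ℝ) (x : Fin d → ℤ) :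
    0 ≤ latR C e u η a x := by
  unfold latR
  split_ifs
  · exact (Real.exp_pos _).le
  · exact le_rfl

lemma lat_eq (e : (Fin d → ℝ) →ₗ[ℝ] ℝ) (u η : ℝ) (a : Fin d → ℝ) (x : Fin d → ℤ) :
    lat C e u η a x = ENNReal.ofReal (latR C e u η a x) := by
  unfold lat latR
  split_ifs <;> simp

/-- `∫_C exp(-u e)` -/
noncomputable def phi (C : Set (Fin d → ℝ)) (e : (Fin d → ℝ) →ₗ[ℝ] ℝ) (u : ℝ) : ℝ :=
  ∫ y in C, Real.exp (-(u * e y))

lemma phi_nonneg (e : (Fin d → ℝ) →ₗ[ℝ] ℝ) (u : ℝ) : 0 ≤ phi C e u :=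
  integral_nonneg fun _ => (Real.exp_pos _).le

lemma ofReal_phi {e : (Fin d → ℝ) →ₗ[ℝ] ℝ} {u : ℝ}
    (hi : IntegrableOn (fun y => Real.exp (-(u * e y))) C) :
    ENNReal.ofReal (phi C e u) = ∫⁻ y in C, ENNReal.ofReal (Real.exp (-(u * e y))) :=
  ofReal_integral_eq_lintegral_ofReal hi (Filter.Eventually.of_forall fun _ => (Real.exp_pos _).le)

theorem tsum_lat_ne_top (hC : Deep C w) (hCm : MeasurableSet C) {e : (Fin d → ℝ) →ₗ[ℝ] ℝ}
    {η u : ℝ} (hη : 0 < η) (hu : 0 ≤ u) (a : Fin d → ℝ)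
    (hi : IntegrableOn (fun y => Real.exp (-(u * e y))) C) :
    ∑' x, lat C e u η a x ≠ ⊤ := by
  have h := riem_upper hC hCm e hη hu a
  rw [← ofReal_phi hi] at h
  intro htop
  rw [htop, ENNReal.mul_top (by simp; positivity)] at h
  rw [top_le_iff] at h
  exact (ENNReal.mul_ne_top ENNReal.ofReal_ne_top ENNReal.ofReal_ne_top) h

theorem summable_latR (hC : Deep C w) (hCm : MeasurableSet C) {e : (Fin d → ℝ) →ₗ[ℝ] ℝ}
    {η u : ℝ} (hη : 0 < η) (hu : 0 ≤ u) (a : Fin d → ℝ)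
    (hi : IntegrableOn (fun y => Real.exp (-(u * e y))) C) :
    Summable (latR C e u η a) := by
  have h := ENNReal.summable_toReal (tsum_lat_ne_top hC hCm hη hu a hi)
  refine h.congr fun x => ?_
  rw [lat_eq, ENNReal.toReal_ofReal (latR_nonneg _ _ _ _ _)]

lemma tsum_lat_eq (hC : Deep C w) (hCm : MeasurableSet C) {e : (Fin d → ℝ) →ₗ[ℝ] ℝ}
    {η u : ℝ} (hη : 0 < η) (hu : 0 ≤ u) (a : Fin d → ℝ)
    (hi : IntegrableOn (fun y => Real.exp (-(u * e y))) C) :
    ∑' x, lat C e u η a x = ENNReal.ofReal (∑' x, latR C e u η a x) := by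
  rw [ENNReal.ofReal_tsum_of_nonneg (fun x => latR_nonneg _ _ _ _ _)
    (summable_latR hC hCm hη hu a hi)]
  exact tsum_congr fun x => lat_eq _ _ _ _ _

theorem F_le (hC : Deep C w) (hCm : MeasurableSet C) {e : (Fin d → ℝ) →ₗ[ℝ] ℝ}
    {η u : ℝ} (hη : 0 < η) (hu : 0 ≤ u) (a : Fin d → ℝ)
    (hi : IntegrableOn (fun y => Real.exp (-(u * e y))) C) :
    η ^ d * ∑' x, latR C e u η a x ≤ Real.exp (u * η * cw e w) * phi C e u := by
  have h := riem_upper hC hCm e hη hu a
  rw [← ofReal_phi hi, tsum_lat_eq hC hCm hη hu a hi, ← ENNReal.ofReal_mul (by positivity),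
    ← ENNReal.ofReal_mul (Real.exp_pos _).le] at h
  exact (ENNReal.ofReal_le_ofReal_iff (mul_nonneg (Real.exp_pos _).le (phi_nonneg _ _))).1 h

theorem F_ge (hC : Deep C w) (hCm : MeasurableSet C) {e : (Fin d → ℝ) →ₗ[ℝ] ℝ}
    {η u : ℝ} (hη : 0 < η) (hu : 0 ≤ u) (a : Fin d → ℝ)
    (hi : IntegrableOn (fun y => Real.exp (-(u * e y))) C) :
    Real.exp (-(u * η * cw e w)) * phi C e u ≤ η ^ d * ∑' x, latR C e u η a x := by
  have h := riem_lower hC hCm e hη hu a
  have hη0 : (0 : ℝ) ≤ η ^ d := by positivity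
  rw [← ofReal_phi hi, tsum_lat_eq hC hCm hη hu a hi, ← ENNReal.ofReal_mul (Real.exp_pos _).le,
    ← ENNReal.ofReal_mul hη0] at h
  exact (ENNReal.ofReal_le_ofReal_iff (mul_nonneg (by positivity)
    (tsum_nonneg fun x => latR_nonneg _ _ _ _ _))).1 h

/-- scaling: `∫_C exp(-u e) = u^{-d} ∫_C exp(-e)` -/
theorem phi_scale (hC : Deep C w) (hCm : MeasurableSet C) (e : (Fin d → ℝ) →ₗ[ℝ] ℝ) {u : ℝ}
    (hu : 0 < u) : phi C e u = (u ^ d)⁻¹ * phi C e 1 := by
  have hmem : ∀ y, u • y ∈ C ↔ y ∈ C := by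
    intro y
    constructor
    · intro h
      have := hC.smul u⁻¹ (by positivity) _ h
      rwa [smul_smul, inv_mul_cancel₀ hu.ne', one_smul] at this
    · exact fun h => hC.smul u hu.le _ h
  have h1 : phi C e u = ∫ y, (C.indicator fun y => Real.exp (-(1 * e y))) (u • y) := by
    unfold phi
    rw [← integral_indicator hCm]
    refine integral_congr_ae (Filter.Eventually.of_forall fun y => ?_)
    by_cases hy : y ∈ C
    · simp only [Set.indicator_of_mem hy, Set.indicator_of_mem ((hmem y).2 hy), map_smul,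
        smul_eq_mul, one_mul]
    · simp only [Set.indicator_of_notMem hy, Set.indicator_of_notMem (fun h => hy ((hmem y).1 h))]
  rw [h1, Measure.integral_comp_smul]
  simp only [Module.finrank_fintype_fun_eq_card, Fintype.card_fin, smul_eq_mul]
  rw [abs_of_pos (by positivity), integral_indicator hCm]
  rfl

theorem integrable_scale (hC : Deep C w) (hCm : MeasurableSet C) {e : (Fin d → ℝ) →ₗ[ℝ] ℝ} {u : ℝ}
    (hu : 0 < u) (hi : IntegrableOn (fun y => Real.exp (-e y)) C) :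
    IntegrableOn (fun y => Real.exp (-(u * e y))) C := by
  have hmem : ∀ y, u • y ∈ C ↔ y ∈ C := by
    intro y
    constructor
    · intro h
      have := hC.smul u⁻¹ (by positivity) _ h
      rwa [smul_smul, inv_mul_cancel₀ hu.ne', one_smul] at this
    · exact fun h => hC.smul u hu.le _ h
  rw [← integrable_indicator_iff hCm] at hi ⊢
  have h2 := (integrable_comp_smul_iff volume (C.indicator fun y => Real.exp (-e y)) hu.ne').2 hi
  refine h2.congr (Filter.Eventually.of_forall fun y => ?_)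
  by_cases hy : y ∈ C
  · simp only [Set.indicator_of_mem hy, Set.indicator_of_mem ((hmem y).2 hy), map_smul, smul_eq_mul]
  · simp only [Set.indicator_of_notMem hy, Set.indicator_of_notMem (fun h => hy ((hmem y).1 h))]

lemma mul_exp_neg_le (y : ℝ) : y * Real.exp (-y) ≤ Real.exp (-(y / 2)) := by
  have h1 : y ≤ Real.exp (y / 2) := by
    by_cases hy : 0 ≤ y
    · have := Real.quadratic_le_exp_of_nonneg (x := y / 2) (by positivity)
      nlinarith [sq_nonneg (y / 2 - 1), sq_nonneg (y - 2)]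
    · have := Real.exp_pos (y / 2); linarith
  have h2 : Real.exp (y / 2) * Real.exp (-y) = Real.exp (-(y / 2)) := by
    rw [← Real.exp_add]; congr 1; ring
  rw [← h2]
  exact mul_le_mul_of_nonneg_right h1 (Real.exp_pos _).le

lemma phi_one_eq (e : (Fin d → ℝ) →ₗ[ℝ] ℝ) : phi C e 1 = ∫ y in C, Real.exp (-e y) := by
  unfold phi; simp

/-- mean of `e` for the lattice exponential law: `Σ e exp(-u e) ≤ u⁻¹ Σ exp(-(u/2) e)` -/
theorem mean_le (hC : Deep C w) (hCm : MeasurableSet C) {e : (Fin d → ℝ) →ₗ[ℝ] ℝ}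
    (he : ∀ x ∈ C, 0 ≤ e x)
    {η u : ℝ} (hη : 0 < η) (hu : 0 < u) (a : Fin d → ℝ)
    (hi : IntegrableOn (fun y => Real.exp (-e y)) C) :
    Summable (fun x => latR C e u η a x * e (pt η a x)) ∧
    ∑' x, latR C e u η a x * e (pt η a x) ≤ u⁻¹ * ∑' x, latR C e (u / 2) η a x := by
  have hu2 : 0 < u / 2 := by positivity
  have hs := summable_latR hC hCm hη hu2.le a (integrable_scale hC hCm hu2 hi)
  have hle : ∀ x, latR C e u η a x * e (pt η a x) ≤ u⁻¹ * latR C e (u / 2) η a x := by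
    intro x
    unfold latR
    split_ifs with h
    · have h1 := mul_exp_neg_le (u * e (pt η a x))
      have h2 : Real.exp (-(u * e (pt η a x))) * e (pt η a x) =
          u⁻¹ * (u * e (pt η a x) * Real.exp (-(u * e (pt η a x)))) := by
        field_simp
      rw [h2]
      refine mul_le_mul_of_nonneg_left (h1.trans (le_of_eq ?_)) (by positivity)
      congr 1; ring
    · simp
  have hnn : ∀ x, 0 ≤ latR C e u η a x * e (pt η a x) := by
    intro x
    unfold latR
    split_ifs with h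
    · exact mul_nonneg (Real.exp_pos _).le (he _ h)
    · simp
  have hsum : Summable (fun x => latR C e u η a x * e (pt η a x)) :=
    Summable.of_nonneg_of_le hnn hle (hs.mul_left _)
  refine ⟨hsum, ?_⟩
  rw [← tsum_mul_left]
  exact hsum.tsum_le_tsum hle (hs.mul_left _)

/-- the mean `E_P e` is at most `s₀ 2^d exp(..)` -/
theorem mean_bound (hC : Deep C w) (hCm : MeasurableSet C) {e : (Fin d → ℝ) →ₗ[ℝ] ℝ}
    (he : ∀ x ∈ C, 0 ≤ e x)
    {η u : ℝ} (hη : 0 < η) (hu : 0 < u) (a : Fin d → ℝ)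
    (hi : IntegrableOn (fun y => Real.exp (-e y)) C) (hpos : 0 < phi C e 1) :
    (∑' x, latR C e u η a x * e (pt η a x)) / (∑' x, latR C e u η a x) ≤
      u⁻¹ * (2 ^ d * Real.exp (2 * (u * η * cw e w))) := by
  have hu2 : 0 < u / 2 := by positivity
  have hc0 := cw_nonneg hC he
  have h1 := (mean_le hC hCm he hη hu a hi).2
  have h2 := F_le hC hCm hη hu2.le a (integrable_scale hC hCm hu2 hi)
  have h3 := F_ge hC hCm hη hu.le a (integrable_scale hC hCm hu hi)
  rw [phi_scale hC hCm e hu2] at h2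
  rw [phi_scale hC hCm e hu] at h3
  have hη0 : (0 : ℝ) < η ^ d := by positivity
  set A := ∑' x, latR C e u η a x * e (pt η a x)
  set F := ∑' x, latR C e u η a x
  set F2 := ∑' x, latR C e (u / 2) η a x
  set E := Real.exp (u * η * cw e w) with hE
  have hEpos : 0 < E := Real.exp_pos _
  have hE1 : 1 ≤ E := Real.one_le_exp (by positivity)
  have hFpos : 0 < F := by
    have : 0 < Real.exp (-(u * η * cw e w)) * ((u ^ d)⁻¹ * phi C e 1) := by positivity
    have h4 : 0 < η ^ d * F := this.trans_le h3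
    exact pos_of_mul_pos_right h4 hη0.le
  rw [div_le_iff₀ hFpos]
  refine h1.trans ?_
  rw [mul_assoc]
  refine mul_le_mul_of_nonneg_left ?_ (by positivity)
  have e1 : Real.exp (-(u * η * cw e w)) = E⁻¹ := by rw [hE, Real.exp_neg]
  have e2 : Real.exp (2 * (u * η * cw e w)) = E * E := by rw [hE, ← Real.exp_add]; congr 1; ring
  have e3 : Real.exp (u / 2 * η * cw e w) ≤ E := by
    rw [hE]
    refine Real.exp_le_exp.2 ?_
    have : 0 ≤ u * η * cw e w := by positivity
    nlinarith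
  rw [e1] at h3
  rw [e2]
  have h5 : (u ^ d)⁻¹ * phi C e 1 ≤ η ^ d * F * E := by
    have := mul_le_mul_of_nonneg_left h3 hEpos.le
    rw [← mul_assoc, mul_inv_cancel₀ hEpos.ne', one_mul] at this
    linarith
  have h6 : ((u / 2) ^ d)⁻¹ = 2 ^ d * (u ^ d)⁻¹ := by
    rw [div_pow, inv_div]; rw [div_eq_mul_inv]
  rw [h6] at h2
  have h7 : η ^ d * F2 ≤ E * (2 ^ d * (η ^ d * F * E)) := by
    refine h2.trans ?_
    have h8 : 2 ^ d * (u ^ d)⁻¹ * phi C e 1 ≤ 2 ^ d * (η ^ d * F * E) := by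
      rw [mul_assoc]
      exact mul_le_mul_of_nonneg_left h5 (by positivity)
    have h9 : 0 ≤ 2 ^ d * (u ^ d)⁻¹ * phi C e 1 := by positivity
    exact mul_le_mul e3 h8 h9 hEpos.le
  have h10 : η ^ d * F2 ≤ η ^ d * (2 ^ d * (E * E) * F) := by
    refine h7.trans (le_of_eq ?_); ring
  exact le_of_mul_le_mul_left h10 hη0

/-- finiteness of the set of lattice points of `[0,z]` -/
theorem finite_pts {η : ℝ} (hη : 0 < η) {z : Fin d → ℝ} (hb : Bornology.IsBounded (oi C z)) :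
    {x : Fin d → ℤ | pt η 0 x ∈ C ∧ z - pt η 0 x ∈ C}.Finite := by
  obtain ⟨R, hR⟩ := hb.exists_norm_le
  have hsub : {x : Fin d → ℤ | pt η 0 x ∈ C ∧ z - pt η 0 x ∈ C} ⊆
      Set.pi univ (fun _ => Set.Icc (-⌈R / η⌉) ⌈R / η⌉) := by
    intro x hx i _
    have h1 := hR (pt η 0 x) hx
    have h2 : |η * (x i : ℝ)| ≤ R := by
      have := (norm_le_pi_norm (pt η 0 x) i).trans h1
      simpa [pt, Real.norm_eq_abs] using this
    rw [abs_mul, abs_of_pos hη] at h2
    have h3 : |(x i : ℝ)| ≤ R / η := by rw [le_div_iff₀ hη]; linarith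
    have h4 := abs_le.1 (h3.trans (Int.le_ceil _))
    constructor
    · exact_mod_cast h4.1
    · exact_mod_cast h4.2
  exact (Set.Finite.pi fun _ => Set.finite_Icc _ _).subset hsub

theorem card_lower (hC : Deep C w) (hCm : MeasurableSet C)
    {η κ : ℝ} (hη : 0 < η) (hκ : κ * η ≤ 1) {z : Fin d → ℝ}
    (hz : κ • z - (2 : ℝ) • toR w ∈ C) (hb : Bornology.IsBounded (oi C z))
    (S : Finset (Fin d → ℤ)) (hS : ∀ x, x ∈ S ↔ pt η 0 x ∈ C ∧ z - pt η 0 x ∈ C) :
    (1 - κ * η) ^ d * (volume (oi C z)).toReal ≤ η ^ d * (S.card : ℝ) := by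
  classical
  have h := cnt_lower hC hCm hη hκ hz
  have hcnt : cnt C η z = (S.card : ENNReal) := by
    unfold cnt
    rw [tsum_eq_sum (s := S)]
    · rw [Finset.sum_congr rfl (g := fun _ => (1 : ENNReal))]
      · simp
      · intro x hx
        rw [if_pos ((hS x).1 hx)]
    · intro x hx
      rw [if_neg (fun h => hx ((hS x).2 h))]
  have hfin : volume (oi C z) ≠ ⊤ := hb.measure_lt_top.ne
  have h0 : (0 : ℝ) ≤ 1 - κ * η := by linarith
  rw [hcnt] at h
  have h2 := ENNReal.toReal_mono (by finiteness) h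
  rw [ENNReal.toReal_mul, ENNReal.toReal_mul, ENNReal.toReal_ofReal (by positivity),
    ENNReal.toReal_ofReal (by positivity)] at h2
  simpa using h2

end Pool.Agent.Helper83.MAH
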