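import Mathlib

/-! The start of the lattice path for Mahler's conjecture: `R0 = uniform law on S * reflected
exponential law`, and the test density `T`. -/

namespace Pool.Agent.Helper83.MAH.Start

open Finset

variable {Γ : Type*} [AddCommGroup Γ]

open Classical in
/-- `exp(-u h)` on the monoid -/
noncomputable def ww (M : AddSubmonoid Γ) (h : Γ →+ ℝ) (u : ℝ) (v : Γ) : ℝ :=
  if v ∈ M then Real.exp (-(u * h v)) else 0

/-- the partition function -/
noncomputable def FF (M : AddSubmonoid Γ) (h : Γ →+ ℝ) (u : ℝ) : ℝ := ∑' v, ww M h u v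

/-- the exponential law -/
noncomputable def PP (M : AddSubmonoid Γ) (h : Γ →+ ℝ) (u : ℝ) (v : Γ) : ℝ :=
  ww M h u v / FF M h u

/-- the start density -/
noncomputable def R0 (M : AddSubmonoid Γ) (h : Γ →+ ℝ) (u : ℝ) (S : Finset Γ) (x : Γ) : ℝ :=
  (S.card : ℝ)⁻¹ * ∑ y ∈ S, PP M h u (y - x)

/-- the test density -/
noncomputable def TT (M : AddSubmonoid Γ) (h : Γ →+ ℝ) (u : ℝ) (x : Γ) : ℝ :=
  ∑' v, PP M h u v * PP M h 1 (x + v)

/-- hypotheses -/
structure Dat (M : AddSubmonoid Γ) (h : Γ →+ ℝ) (u : ℝ) (S : Finset Γ) (E0 : ℝ) : Prop where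
  hM : ∀ v ∈ M, 0 ≤ h v
  hu : 1 ≤ u
  Ssub : ∀ y ∈ S, y ∈ M
  Sne : S.Nonempty
  hE : ∀ y ∈ S, h y ≤ E0
  sm1 : Summable (ww M h 1)
  smu : Summable (ww M h u)
  smm : Summable fun v => ww M h u v * h v

variable {M : AddSubmonoid Γ} {h : Γ →+ ℝ} {u : ℝ} {S : Finset Γ} {E0 : ℝ}

lemma ww_nonneg (v : Γ) : 0 ≤ ww M h u v := by
  unfold ww; split_ifs
  · exact (Real.exp_pos _).le
  · exact le_rfl

lemma ww_le_one (hM : ∀ v ∈ M, 0 ≤ h v) (hu : 0 ≤ u) (v : Γ) : ww M h u v ≤ 1 := by
  unfold ww; split_ifs with hv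
  · refine Real.exp_le_one_iff.2 ?_
    have := mul_nonneg hu (hM v hv)
    linarith
  · exact zero_le_one

lemma FF_ge_one (hs : Summable (ww M h u)) : 1 ≤ FF M h u := by
  have h1 : ww M h u 0 = 1 := by
    unfold ww; rw [if_pos M.zero_mem]; simp
  rw [← h1]
  exact hs.le_tsum 0 fun v _ => ww_nonneg v

lemma FF_pos (hs : Summable (ww M h u)) : 0 < FF M h u := lt_of_lt_of_le one_pos (FF_ge_one hs)

lemma PP_nonneg (hs : Summable (ww M h u)) (v : Γ) : 0 ≤ PP M h u v :=
  div_nonneg (ww_nonneg v) (FF_pos hs).le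

lemma PP_hasSum (hs : Summable (ww M h u)) : HasSum (PP M h u) 1 := by
  have := hs.hasSum.div_const (FF M h u)
  have h1 : (∑' v, ww M h u v) / FF M h u = 1 := div_self (FF_pos hs).ne'
  rwa [h1] at this

lemma PP_le_one (hs : Summable (ww M h u)) (v : Γ) : PP M h u v ≤ 1 :=
  le_hasSum (PP_hasSum hs) v fun w _ => PP_nonneg hs w

lemma PP_of_mem (v : Γ) (hv : v ∈ M) : PP M h u v = Real.exp (-(u * h v)) / FF M h u := by
  unfold PP ww; rw [if_pos hv]

lemma PP_of_not (v : Γ) (hv : v ∉ M) : PP M h u v = 0 := by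
  unfold PP ww; rw [if_neg hv, zero_div]

lemma PP_pos (hs : Summable (ww M h u)) {v : Γ} (hv : v ∈ M) : 0 < PP M h u v := by
  rw [PP_of_mem v hv]
  exact div_pos (Real.exp_pos _) (FF_pos hs)

lemma PP_mem (hs : Summable (ww M h u)) {v : Γ} (hv : PP M h u v ≠ 0) : v ∈ M := by
  by_contra hc
  exact hv (PP_of_not v hc)

/-- shifting the exponential law -/
lemma PP_add (hs : Summable (ww M h u)) (x : Γ) {v : Γ} (hv : v ∈ M) :
    Real.exp (-(u * h v)) * PP M h u x ≤ PP M h u (x + v) := by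
  by_cases hx : x ∈ M
  · rw [PP_of_mem x hx, PP_of_mem _ (M.add_mem hx hv), map_add, ← mul_div_assoc, ← Real.exp_add]
    refine le_of_eq ?_
    congr 2; ring
  · rw [PP_of_not x hx, mul_zero]
    exact PP_nonneg hs _

lemma PP_sub_hasSum (hs : Summable (ww M h u)) (y : Γ) :
    HasSum (fun x => PP M h u (y - x)) 1 :=
  (Equiv.subLeft y).hasSum_iff.2 (PP_hasSum hs)

section main

variable (D : Dat M h u S E0)
include D

lemma cardpos : (0 : ℝ) < S.card := by exact_mod_cast D.Sne.card_pos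

lemma R0_nonneg (x : Γ) : 0 ≤ R0 M h u S x :=
  mul_nonneg (inv_nonneg.2 (cardpos D).le) (sum_nonneg fun _ _ => PP_nonneg D.smu _)

theorem R0_hasSum : HasSum (R0 M h u S) 1 := by
  have h1 : HasSum (fun x => ∑ y ∈ S, PP M h u (y - x)) (∑ _y ∈ S, (1 : ℝ)) :=
    hasSum_sum fun y _ => PP_sub_hasSum D.smu y
  have h2 := h1.mul_left ((S.card : ℝ)⁻¹)
  have h3 : (S.card : ℝ)⁻¹ * ∑ _y ∈ S, (1 : ℝ) = 1 := by
    simp only [sum_const, nsmul_eq_mul, mul_one]
    exact inv_mul_cancel₀ (cardpos D).ne'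
  rwa [h3] at h2

theorem R0_down (x : Γ) {v : Γ} (hv : v ∈ M) :
    Real.exp (-(u * h v)) * R0 M h u S x ≤ R0 M h u S (x - v) := by
  unfold R0
  rw [mul_left_comm, mul_sum]
  refine mul_le_mul_of_nonneg_left (sum_le_sum fun y _ => ?_) (inv_nonneg.2 (cardpos D).le)
  have h1 : y - (x - v) = (y - x) + v := by abel
  rw [h1]
  exact PP_add D.smu _ hv

theorem R0_supp {x : Γ} (hx : R0 M h u S x ≠ 0) : ∃ y ∈ S, y - x ∈ M := by
  by_contra hc
  push Not at hc
  apply hx
  unfold R0
  rw [sum_eq_zero fun y hy => PP_of_not _ (hc y hy), mul_zero]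

theorem R0_le_inv (x : Γ) : R0 M h u S x ≤ (S.card : ℝ)⁻¹ := by
  classical
  unfold R0
  have h1 : ∑ y ∈ S, PP M h u (y - x) ≤ 1 := by
    have h2 : ∑ y ∈ S, PP M h u (y - x) = ∑ v ∈ S.image (fun y => y - x), PP M h u v := by
      rw [sum_image fun a _ b _ hab => sub_left_injective hab]
    rw [h2]
    exact sum_le_hasSum _ (fun v _ => PP_nonneg D.smu v) (PP_hasSum D.smu)
  calc (S.card : ℝ)⁻¹ * ∑ y ∈ S, PP M h u (y - x) ≤ (S.card : ℝ)⁻¹ * 1 :=
        mul_le_mul_of_nonneg_left h1 (inv_nonneg.2 (cardpos D).le)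
    _ = _ := mul_one _

theorem R0_le_exp (x : Γ) : R0 M h u S x ≤ Real.exp (h x) := by
  have hc := cardpos D
  have h1 : ∀ y ∈ S, PP M h u (y - x) ≤ Real.exp (h x) := by
    intro y hy
    by_cases hm : y - x ∈ M
    · rw [PP_of_mem _ hm]
      have h2 := D.hM _ hm
      have h3 : Real.exp (-(u * h (y - x))) ≤ Real.exp (h x) := by
        refine Real.exp_le_exp.2 ?_
        have h4 : h (y - x) ≤ u * h (y - x) := by nlinarith [D.hu]
        have h5 : h (y - x) = h y - h x := map_sub h y x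
        have h6 := D.hM _ (D.Ssub y hy)
        linarith
      exact (div_le_self (Real.exp_pos _).le (FF_ge_one D.smu)).trans h3
    · rw [PP_of_not _ hm]; exact (Real.exp_pos _).le
  unfold R0
  have h2 : ∑ y ∈ S, PP M h u (y - x) ≤ S.card * Real.exp (h x) := by
    have := sum_le_sum h1
    simpa using this
  calc (S.card : ℝ)⁻¹ * ∑ y ∈ S, PP M h u (y - x) ≤ (S.card : ℝ)⁻¹ * (S.card * Real.exp (h x)) :=
        mul_le_mul_of_nonneg_left h2 (inv_nonneg.2 hc.le)
    _ = Real.exp (h x) := by rw [← mul_assoc, inv_mul_cancel₀ hc.ne', one_mul]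

/-- domination by `exp(-n)`, `n x = inf {h p + h q : x = p - q}` -/
theorem R0_dom {x y : Γ} (hy : y ∈ S) :
    R0 M h u S x ≤ Real.exp (2 * E0) * Real.exp (-(h y + h (y - x))) := by
  refine (R0_le_exp D x).trans ?_
  rw [← Real.exp_add]
  refine Real.exp_le_exp.2 ?_
  have h5 : h (y - x) = h y - h x := map_sub h y x
  have := D.hE y hy
  linarith

/-- lower bound on the support -/
theorem R0_ge {x y : Γ} (hy : y ∈ S) (hm : y - x ∈ M) :
    (S.card : ℝ)⁻¹ * (Real.exp (-(u * h (y - x))) / FF M h u) ≤ R0 M h u S x := by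
  unfold R0
  refine mul_le_mul_of_nonneg_left ?_ (inv_nonneg.2 (cardpos D).le)
  rw [← PP_of_mem _ hm]
  exact single_le_sum (f := fun y => PP M h u (y - x)) (fun z _ => PP_nonneg D.smu _) hy

/-- the mean of the exponential law -/
noncomputable def mP (M : AddSubmonoid Γ) (h : Γ →+ ℝ) (u : ℝ) : ℝ := ∑' v, PP M h u v * h v

omit D in
lemma PPh_eq (v : Γ) : PP M h u v * h v = ww M h u v * h v / FF M h u := by
  unfold PP; ring

lemma PPh_summable : Summable fun v => PP M h u v * h v := by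
  simp only [PPh_eq]
  exact D.smm.div_const _

theorem R0h_hasSum : HasSum (fun x => R0 M h u S x * h x)
    ((S.card : ℝ)⁻¹ * ∑ y ∈ S, h y - mP M h u) := by
  have h1 : ∀ y, HasSum (fun x => PP M h u (y - x) * h x) (h y - mP M h u) := by
    intro y
    have e1 : HasSum (fun x => PP M h u (y - x) * h (y - x)) (mP M h u) :=
      (Equiv.subLeft y).hasSum_iff.2 (PPh_summable D).hasSum
    have e2 := (PP_sub_hasSum D.smu y).mul_right (h y)
    have e3 := e2.sub e1
    rw [one_mul] at e3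
    have e4 : (fun x => PP M h u (y - x) * h x) =
        fun x => PP M h u (y - x) * h y - PP M h u (y - x) * h (y - x) := by
      funext x
      rw [map_sub]; ring
    rw [e4]; exact e3
  have h2 : HasSum (fun x => ∑ y ∈ S, PP M h u (y - x) * h x) (∑ y ∈ S, (h y - mP M h u)) :=
    hasSum_sum fun y _ => h1 y
  have h3 := h2.mul_left ((S.card : ℝ)⁻¹)
  have h4 : (S.card : ℝ)⁻¹ * ∑ y ∈ S, (h y - mP M h u) =
      (S.card : ℝ)⁻¹ * ∑ y ∈ S, h y - mP M h u := by
    rw [sum_sub_distrib, mul_sub, sum_const, nsmul_eq_mul, ← mul_assoc,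
      inv_mul_cancel₀ (cardpos D).ne', one_mul]
  rw [h4] at h3
  have h5 : (fun x => R0 M h u S x * h x) =
      fun x => (S.card : ℝ)⁻¹ * ∑ y ∈ S, PP M h u (y - x) * h x := by
    funext x
    unfold R0
    rw [← sum_mul, mul_assoc]
  rw [h5]; exact h3

/-- `E0 - h ≥ 0` on the support -/
lemma psi_nonneg {x : Γ} (hx : R0 M h u S x ≠ 0) : 0 ≤ E0 - h x := by
  obtain ⟨y, hy, hm⟩ := R0_supp D hx
  have h1 := D.hM _ hm
  have h5 : h (y - x) = h y - h x := map_sub h y x
  have := D.hE y hy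
  linarith

lemma log_bound {x : Γ} (hx : R0 M h u S x ≠ 0) :
    -Real.log (R0 M h u S x) ≤ Real.log S.card + Real.log (FF M h u) + u * (E0 - h x) := by
  obtain ⟨y, hy, hm⟩ := R0_supp D hx
  have hc := cardpos D
  have hF := FF_pos D.smu
  have h1 := R0_ge D hy hm
  have h2 := Real.log_le_log (by positivity) h1
  rw [Real.log_mul (by positivity) (by positivity), Real.log_div (by positivity) hF.ne',
    Real.log_exp, Real.log_inv] at h2
  have h5 : h (y - x) = h y - h x := map_sub h y x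
  have h6 := D.hE y hy
  have h7 : u * h (y - x) ≤ u * (E0 - h x) :=
    mul_le_mul_of_nonneg_left (by linarith) (by linarith [D.hu])
  linarith

lemma R0_le_one (x : Γ) : R0 M h u S x ≤ 1 := by
  refine (R0_le_inv D x).trans (inv_le_one_of_one_le₀ ?_)
  exact_mod_cast D.Sne.card_pos

lemma log_card_nonneg : 0 ≤ Real.log S.card :=
  Real.log_nonneg (by exact_mod_cast D.Sne.card_pos)

lemma R0psi_summable : Summable fun x => R0 M h u S x * (E0 - h x) := by
  have h1 := ((R0_hasSum D).mul_right E0).sub (R0h_hasSum D)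
  refine h1.summable.congr fun x => ?_
  ring

theorem R0psi_tsum : ∑' x, R0 M h u S x * (E0 - h x) =
    E0 - (S.card : ℝ)⁻¹ * ∑ y ∈ S, h y + mP M h u := by
  have h1 := ((R0_hasSum D).mul_right E0).sub (R0h_hasSum D)
  rw [← tsum_congr (fun x => show R0 M h u S x * E0 - R0 M h u S x * h x =
    R0 M h u S x * (E0 - h x) by ring), h1.tsum_eq]
  ring

theorem ent_summable : Summable fun x => R0 M h u S x * (-Real.log (R0 M h u S x)) := by
  have hF : 0 ≤ Real.log (FF M h u) := Real.log_nonneg (FF_ge_one D.smu)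
  refine Summable.of_nonneg_of_le (fun x => ?_) (fun x => ?_)
    (((R0_hasSum D).summable.mul_right (Real.log S.card + Real.log (FF M h u))).add
      ((R0psi_summable D).mul_left u))
  · refine mul_nonneg (R0_nonneg D x) (neg_nonneg.2 (Real.log_nonpos (R0_nonneg D x) (R0_le_one D x)))
  · by_cases hx : R0 M h u S x = 0
    · rw [hx]; simp
    · have := mul_le_mul_of_nonneg_left (log_bound D hx) (R0_nonneg D x)
      refine this.trans (le_of_eq ?_)
      ring

theorem ent_ge : Real.log S.card ≤ ∑' x, R0 M h u S x * (-Real.log (R0 M h u S x)) := by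
  have h1 := (R0_hasSum D).mul_right (Real.log S.card)
  rw [one_mul] at h1
  rw [← h1.tsum_eq]
  refine h1.summable.tsum_le_tsum (fun x => ?_) (ent_summable D)
  by_cases hx : R0 M h u S x = 0
  · rw [hx]; simp
  · have hpos := (R0_nonneg D x).lt_of_ne' hx
    have h2 := Real.log_le_log hpos (R0_le_inv D x)
    rw [Real.log_inv] at h2
    exact mul_le_mul_of_nonneg_left (by linarith) hpos.le

/-! ### the test density -/

lemma TT_term_summable (x : Γ) : Summable fun v => PP M h u v * PP M h 1 (x + v) := by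
  refine Summable.of_nonneg_of_le (fun v => mul_nonneg (PP_nonneg D.smu v) (PP_nonneg D.sm1 _))
    (fun v => ?_) (PP_hasSum D.smu).summable
  exact mul_le_of_le_one_right (PP_nonneg D.smu v) (PP_le_one D.sm1 _)

theorem TT_nonneg (x : Γ) : 0 ≤ TT M h u x :=
  tsum_nonneg fun v => mul_nonneg (PP_nonneg D.smu v) (PP_nonneg D.sm1 _)

theorem TT_le_one (x : Γ) : TT M h u x ≤ 1 := by
  rw [← (PP_hasSum D.smu).tsum_eq]
  exact (TT_term_summable D x).tsum_le_tsum
    (fun v => mul_le_of_le_one_right (PP_nonneg D.smu v) (PP_le_one D.sm1 _))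
    (PP_hasSum D.smu).summable

theorem TT_hasSum : HasSum (TT M h u) 1 := by
  have hP := PP_hasSum D.smu
  have hg := PP_hasSum (M := M) (h := h) (u := 1) D.sm1
  have hsum : Summable fun p : Γ × Γ => PP M h 1 p.1 * PP M h u p.2 :=
    hg.summable.mul_of_nonneg hP.summable (fun v => PP_nonneg D.sm1 v) (fun v => PP_nonneg D.smu v)
  have h1 : HasSum (fun p : Γ × Γ => PP M h 1 p.1 * PP M h u p.2) (1 * 1) := hg.mul hP hsum
  let σ : Γ × Γ ≃ Γ × Γ :=
    { toFun := fun p => (p.1 + p.2, p.2)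
      invFun := fun p => (p.1 - p.2, p.2)
      left_inv := fun p => by simp
      right_inv := fun p => by simp }
  have h2 : HasSum ((fun p : Γ × Γ => PP M h 1 p.1 * PP M h u p.2) ∘ σ) (1 * 1) :=
    σ.hasSum_iff.2 h1
  have h3 := h2.prod_fiberwise (g := TT M h u) (fun x => by
    have h4 := (TT_term_summable D x).hasSum
    have h5 : (fun c => ((fun p : Γ × Γ => PP M h 1 p.1 * PP M h u p.2) ∘ σ) (x, c)) =
        fun v => PP M h u v * PP M h 1 (x + v) := by
      funext v
      simp only [Function.comp, σ, Equiv.coe_fn_mk]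
      ring
    rw [h5]; exact h4)
  rwa [one_mul] at h3

theorem TT_up (x : Γ) {v : Γ} (hv : v ∈ M) :
    Real.exp (-h v) * TT M h u x ≤ TT M h u (x + v) := by
  unfold TT
  rw [← tsum_mul_left]
  refine ((TT_term_summable D x).mul_left _).tsum_le_tsum (fun w => ?_)
    (TT_term_summable D (x + v))
  have h1 := PP_add (M := M) (h := h) (u := 1) D.sm1 (x + w) hv
  rw [one_mul] at h1
  have h2 : x + v + w = x + w + v := by abel
  rw [h2, mul_left_comm]
  exact mul_le_mul_of_nonneg_left h1 (PP_nonneg D.smu w)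

theorem TT_ge (x v : Γ) : PP M h u v * PP M h 1 (x + v) ≤ TT M h u x :=
  (TT_term_summable D x).le_tsum v fun w _ => mul_nonneg (PP_nonneg D.smu w) (PP_nonneg D.sm1 _)

theorem TT_pos {x v : Γ} (hv : v ∈ M) (hxv : x + v ∈ M) : 0 < TT M h u x :=
  lt_of_lt_of_le (mul_pos (PP_pos D.smu hv) (PP_pos D.sm1 hxv)) (TT_ge D x v)

theorem TT_pos_of_R0 {x : Γ} (hx : R0 M h u S x ≠ 0) : 0 < TT M h u x := by
  obtain ⟨y, hy, hm⟩ := R0_supp D hx
  refine TT_pos D hm ?_
  have : x + (y - x) = y := by abel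
  rw [this]; exact D.Ssub y hy

/-- the finite part of `T` -/
lemma TT_ge_sum (x : Γ) : ∑ y ∈ S, PP M h 1 y * PP M h u (y - x) ≤ TT M h u x := by
  classical
  have h2 : ∑ y ∈ S, PP M h 1 y * PP M h u (y - x) =
      ∑ v ∈ S.image (fun y => y - x), PP M h u v * PP M h 1 (x + v) := by
    rw [sum_image fun a _ b _ hab => sub_left_injective hab]
    refine sum_congr rfl fun y _ => ?_
    have : x + (y - x) = y := by abel
    rw [this, mul_comm]
  rw [h2]
  exact (TT_term_summable D x).sum_le_tsum _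
    (fun v _ => mul_nonneg (PP_nonneg D.smu v) (PP_nonneg D.sm1 _))

/-- constants of the log sum inequality -/
noncomputable def cc (M : AddSubmonoid Γ) (h : Γ →+ ℝ) (S : Finset Γ) (y : Γ) : ℝ :=
  Real.log (FF M h 1) + h y - Real.log S.card

omit D in
theorem log_sum {ι : Type*} (F : Finset ι) (a b : ι → ℝ) (ha : ∀ i ∈ F, 0 < a i)
    (hb : ∀ i ∈ F, 0 < b i) :
    (∑ i ∈ F, a i) * Real.log ((∑ i ∈ F, a i) / ∑ i ∈ F, b i) ≤
      ∑ i ∈ F, a i * Real.log (a i / b i) := by
  rcases F.eq_empty_or_nonempty with rfl | hF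
  · simp
  have hA : 0 < ∑ i ∈ F, a i := sum_pos ha hF
  have hB : 0 < ∑ i ∈ F, b i := sum_pos hb hF
  set A := ∑ i ∈ F, a i with hAd
  set B := ∑ i ∈ F, b i with hBd
  have key : ∀ i ∈ F, a i - b i * (A / B) ≤ a i * Real.log (a i / b i) - a i * Real.log (A / B) := by
    intro i hi
    have h1 := ha i hi
    have h2 := hb i hi
    have hx : 0 < b i * (A / B) / a i := by positivity
    have h3 := Real.log_le_sub_one_of_pos hx
    have h4 : Real.log (b i * (A / B) / a i) = -(Real.log (a i / b i)) + Real.log (A / B) := by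
      rw [Real.log_div (by positivity) (by positivity), Real.log_mul (by positivity) (by positivity),
        Real.log_div (x := a i) (y := b i) (by positivity) (by positivity)]
      ring
    rw [h4] at h3
    have h5 : a i * (-(Real.log (a i / b i)) + Real.log (A / B)) ≤
        a i * (b i * (A / B) / a i - 1) := mul_le_mul_of_nonneg_left h3 h1.le
    have h6 : a i * (b i * (A / B) / a i - 1) = b i * (A / B) - a i := by
      field_simp
    rw [h6] at h5
    linarith
  have h1 := sum_le_sum key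
  rw [sum_sub_distrib, sum_sub_distrib, ← sum_mul, ← sum_mul, ← hAd, ← hBd] at h1
  have h2 : A - B * (A / B) = 0 := by field_simp; ring
  linarith

lemma cross_term (x : Γ) : R0 M h u S x * (-Real.log (TT M h u x)) ≤
    R0 M h u S x * (-Real.log (R0 M h u S x)) +
      (S.card : ℝ)⁻¹ * ∑ y ∈ S, PP M h u (y - x) * cc M h S y := by
  classical
  have hc := cardpos D
  have hF1 := FF_pos D.sm1
  by_cases hx : R0 M h u S x = 0
  · rw [hx]
    have h1 : ∀ y ∈ S, PP M h u (y - x) = 0 := by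
      intro y hy
      by_contra hne
      have h2 := R0_ge D hy (PP_mem D.smu hne)
      rw [hx, ← PP_of_mem _ (PP_mem D.smu hne)] at h2
      have h3 : 0 < PP M h u (y - x) := (PP_nonneg D.smu _).lt_of_ne' hne
      have : 0 < (S.card : ℝ)⁻¹ * PP M h u (y - x) := by positivity
      linarith
    rw [sum_eq_zero fun y hy => by rw [h1 y hy, zero_mul]]
    simp
  set F := S.filter (fun y => PP M h u (y - x) ≠ 0) with hFd
  have hsub : ∀ g : Γ → ℝ, ∑ y ∈ S, PP M h u (y - x) * g y = ∑ y ∈ F, PP M h u (y - x) * g y := by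
    intro g
    rw [hFd, sum_filter]
    refine sum_congr rfl fun y _ => ?_
    split_ifs with h1
    · rfl
    · rw [not_not.1 h1, zero_mul]
  set a : Γ → ℝ := fun y => PP M h u (y - x) * (S.card : ℝ)⁻¹ with ha
  set b : Γ → ℝ := fun y => PP M h u (y - x) * PP M h 1 y with hb
  have hpos : ∀ y ∈ F, 0 < PP M h u (y - x) := by
    intro y hy
    exact (PP_nonneg D.smu _).lt_of_ne' (mem_filter.1 hy).2
  have hg : ∀ y ∈ F, 0 < PP M h 1 y := fun y hy =>
    PP_pos D.sm1 (D.Ssub y (mem_filter.1 hy).1)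
  have h1 := log_sum F a b (fun y hy => mul_pos (hpos y hy) (inv_pos.2 hc))
    (fun y hy => mul_pos (hpos y hy) (hg y hy))
  have hA : ∑ y ∈ F, a y = R0 M h u S x := by
    rw [ha, ← hsub fun _ => (S.card : ℝ)⁻¹, ← sum_mul, mul_comm]
    rfl
  have hB : ∑ y ∈ F, b y ≤ TT M h u x := by
    rw [hb, ← hsub fun y => PP M h 1 y]
    refine le_trans (le_of_eq ?_) (TT_ge_sum D x)
    exact sum_congr rfl fun y _ => mul_comm _ _
  have hRpos : 0 < R0 M h u S x := (R0_nonneg D x).lt_of_ne' hx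
  have hFne : F.Nonempty := by
    by_contra hne
    rw [not_nonempty_iff_eq_empty] at hne
    rw [hne, sum_empty] at hA
    exact hx hA.symm
  have hBpos : 0 < ∑ y ∈ F, b y := sum_pos (fun y hy => mul_pos (hpos y hy) (hg y hy)) hFne
  rw [hA, Real.log_div hRpos.ne' hBpos.ne'] at h1
  have h2 := Real.log_le_log hBpos hB
  have h3 := mul_le_mul_of_nonneg_left h2 hRpos.le
  have h4 : ∑ y ∈ F, a y * Real.log (a y / b y) =
      (S.card : ℝ)⁻¹ * ∑ y ∈ S, PP M h u (y - x) * cc M h S y := by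
    rw [hsub, mul_sum]
    refine sum_congr rfl fun y hy => ?_
    have h5 : a y / b y = (S.card : ℝ)⁻¹ / PP M h 1 y := by
      simp only [ha, hb]
      exact mul_div_mul_left _ _ (hpos y hy).ne'
    rw [h5, Real.log_div (by positivity) (hg y hy).ne', Real.log_inv,
      PP_of_mem _ (D.Ssub y (mem_filter.1 hy).1), Real.log_div (by positivity) hF1.ne',
      Real.log_exp]
    simp only [ha, cc]
    ring
  rw [h4] at h1
  linarith

theorem cross_summable : Summable fun x => R0 M h u S x * (-Real.log (TT M h u x)) := by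
  have h2 : ∀ y, Summable fun x => PP M h u (y - x) * cc M h S y := fun y =>
    (PP_sub_hasSum D.smu y).summable.mul_right _
  refine Summable.of_nonneg_of_le (fun x => ?_) (cross_term D)
    ((ent_summable D).add ((summable_sum fun y _ => h2 y).mul_left _))
  exact mul_nonneg (R0_nonneg D x) (neg_nonneg.2 (Real.log_nonpos (TT_nonneg D x) (TT_le_one D x)))

theorem cross_le : ∑' x, R0 M h u S x * (-Real.log (TT M h u x)) ≤
    Real.log (FF M h 1) + (S.card : ℝ)⁻¹ * ∑ y ∈ S, h y - Real.log S.card +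
      ∑' x, R0 M h u S x * (-Real.log (R0 M h u S x)) := by
  have hc := cardpos D
  have h2 : ∀ y, HasSum (fun x => PP M h u (y - x) * cc M h S y) (cc M h S y) := fun y => by
    have := (PP_sub_hasSum D.smu y).mul_right (cc M h S y)
    rwa [one_mul] at this
  have h3 := (hasSum_sum (s := S) fun y _ => h2 y).mul_left ((S.card : ℝ)⁻¹)
  have h4 := (ent_summable D).hasSum.add h3
  have h5 := (cross_summable D).tsum_le_tsum (cross_term D) h4.summable
  rw [h4.tsum_eq] at h5
  refine h5.trans (le_of_eq ?_)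
  have h6 : (S.card : ℝ)⁻¹ * ∑ y ∈ S, cc M h S y =
      Real.log (FF M h 1) + (S.card : ℝ)⁻¹ * ∑ y ∈ S, h y - Real.log S.card := by
    unfold cc
    rw [sum_sub_distrib, sum_add_distrib, sum_const, sum_const, nsmul_eq_mul, nsmul_eq_mul]
    field_simp
  rw [h6]; ring

end main

end Pool.Agent.Helper83.MAH.Start
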